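import Pool.Agent.Lib.MP_7ee132_co.Base
import Pool.Agent.Lib.MP_7ee132_co.Tw

set_option autoImplicit false

namespace Pool.Agent.Results.MP_7ee132_co.HamiltonTwist

open Pool.Agent.Lib.MP_7ee132_co

theorem not_mem_edges {V : Type*} {G : SimpleGraph V} {u v : V} (p : G.Walk u v)
    (hp : p.IsPath) (hl : 2 ≤ p.length) : s(v, u) ∉ p.edges := by
  cases p with
  | nil => simp at hl
  | @cons _ w _ h q =>
    rw [SimpleGraph.Walk.cons_isPath_iff] at hp
    rw [SimpleGraph.Walk.edges_cons, List.mem_cons]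
    rintro (he | he)
    · rw [Sym2.eq_iff] at he
      rcases he with ⟨h1, h2⟩ | ⟨h1, h2⟩
      · exact h.ne h2
      · subst h1
        have := SimpleGraph.Walk.isPath_iff_nil.1 hp.1
        rw [SimpleGraph.Walk.length_cons, SimpleGraph.Walk.length_eq_zero_iff.2 this] at hl
        omega
    · exact hp.2 (q.snd_mem_support_of_mem_edges he)

theorem exists_cycle {V : Type*} [DecidableEq V] (G : SimpleGraph V) (l : List V) (hnd : l.Nodup)
    (hch : l.IsChain G.Adj) (hne : l ≠ []) (hlen : 3 ≤ l.length)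
    (hcl : G.Adj (l.getLast hne) (l.head hne)) (hall : ∀ v, v ∈ l) :
    ∃ (v : V) (w : G.Walk v v), w.IsHamiltonianCycle := by
  refine ⟨_, SimpleGraph.Walk.cons hcl (SimpleGraph.Walk.ofSupport l hne hch), ?_⟩
  rw [SimpleGraph.Walk.isHamiltonianCycle_iff_isCycle_and_support_count_tail_eq_one]
  constructor
  · rw [SimpleGraph.Walk.cons_isCycle_iff]
    have hp : (SimpleGraph.Walk.ofSupport l hne hch).IsPath := by
      rw [SimpleGraph.Walk.isPath_def, SimpleGraph.Walk.support_ofSupport]
      exact hnd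
    refine ⟨hp, not_mem_edges _ hp ?_⟩
    rw [SimpleGraph.Walk.length_ofSupport]
    omega
  · intro v
    rw [SimpleGraph.Walk.support_cons, List.tail_cons, SimpleGraph.Walk.support_ofSupport]
    exact List.count_eq_one_of_mem hnd (hall v)

theorem exists_lift (n : ℕ) : ∀ l : List P, (∀ v ∈ l, psz v = n) →
    ∃ m : List {D : Finset (ℕ × ℕ) // IsColorful (3 * n + 3) D},
      m.map Subtype.val = l.map (fun v => DQ v 1)
  | [], _ => ⟨[], rfl⟩
  | v :: l, h => by
    obtain ⟨m, hm⟩ := exists_lift n l (fun w hw => h w (List.mem_cons_of_mem _ hw))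
    exact ⟨⟨DQ v 1, DQ_colorful v n (h v List.mem_cons_self)⟩ :: m, by simp [hm]⟩

theorem chain_up (n : ℕ) : ∀ l : List P, l.Nodup → (∀ v ∈ l, psz v = n) → l.IsChain R →
    l.IsChain (fun v w => v ≠ w ∧ psz v = n ∧ R v w)
  | [], _, _, _ => List.IsChain.nil
  | [a], _, _, _ => List.IsChain.singleton a
  | a :: b :: l, h1, h2, h3 => by
    rw [List.isChain_cons_cons] at h3 ⊢
    rw [List.nodup_cons] at h1
    refine ⟨⟨fun h => h1.1 (h ▸ List.mem_cons_self), h2 a List.mem_cons_self, h3.1⟩, ?_⟩
    exact chain_up n (b :: l) h1.2 (fun w hw => h2 w (List.mem_cons_of_mem _ hw)) h3.2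

/-- A tree with `k` nodes. -/
def cat : ℕ → T
  | 0 => T.leaf
  | k + 1 => T.node (cat k) T.leaf T.leaf T.leaf

theorem cat_size : ∀ k, (cat k).size = k
  | 0 => rfl
  | k + 1 => by simp [cat, cat_size k]

theorem cat_ne {k : ℕ} (h : 1 ≤ k) : cat k ≠ T.leaf := by
  intro hk
  have := cat_size k
  rw [hk] at this
  simp at this
  omega

/-- For every `N ≥ 9` divisible by `3` the twist graph has a Hamilton cycle. -/
theorem result : ∀ N : ℕ, 9 ≤ N → 3 ∣ N →
    ∃ (D : {D : Finset (ℕ × ℕ) // IsColorful N D}) (w : (twistGraph N).Walk D D),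
      w.IsHamiltonianCycle := by
  intro N hN h3
  obtain ⟨n, rfl⟩ : ∃ n, N = 3 * n + 3 := ⟨N / 3 - 1, by omega⟩
  have hn : 2 ≤ n := by omega
  obtain ⟨l, a, b, hl, hba, hall, -⟩ := ham n hn
  have hsz : ∀ v ∈ l, psz v = n := fun v hv => (hall v).1 hv
  have hmem : ∀ v, psz v = n → v ∈ l := fun v hv => (hall v).2 hv
  obtain ⟨m, hm⟩ := exists_lift n l hsz
  -- three different members
  have hlen : 3 ≤ l.length := by
    have h1 : ((T.leaf, cat n) : P) ≠ (cat n, T.leaf) := by
      intro h
      exact cat_ne (by omega) (Prod.mk.inj h).2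
    have h2 : ((T.leaf, cat n) : P) ≠ (cat 1, cat (n - 1)) := by
      intro h
      exact cat_ne (k := 1) (le_refl 1) (Prod.mk.inj h).1.symm
    have h3 : ((cat n, T.leaf) : P) ≠ (cat 1, cat (n - 1)) := by
      intro h
      exact cat_ne (by omega : 1 ≤ n - 1) (Prod.mk.inj h).2.symm
    have hnd : [((T.leaf, cat n) : P), (cat n, T.leaf), (cat 1, cat (n - 1))].Nodup := by
      simp [h1, h2, h3]
    have hsub : [((T.leaf, cat n) : P), (cat n, T.leaf), (cat 1, cat (n - 1))] ⊆ l := by
      intro v hv
      simp only [List.mem_cons, List.not_mem_nil, or_false] at hv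
      apply hmem
      rcases hv with rfl | rfl | rfl
      · simp [psz, cat_size]
      · simp [psz, cat_size]
      · simp only [psz, cat_size]; omega
    exact (List.subperm_of_subset hnd hsub).length_le
  have hlm : m.length = l.length := by
    have := congrArg List.length hm
    simpa using this
  have hne : m ≠ [] := by
    intro h
    rw [h] at hlm
    simp at hlm
    omega
  have hmnd : m.Nodup := by
    apply List.Nodup.of_map Subtype.val
    rw [hm]
    exact List.Nodup.map_on
      (fun x hx y hy h => DQ_inj (by rw [hsz x hx, hsz y hy]) h) hl.nodup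
  have hmch : m.IsChain (twistGraph (3 * n + 3)).Adj := by
    have h1 : (m.map Subtype.val).IsChain (fun D D' => D ≠ D' ∧
        (Twist (3 * n + 3) D D' ∨ Twist (3 * n + 3) D' D)) := by
      rw [hm, List.isChain_map]
      have h2 := chain_up n l hl.nodup hsz hl.chain
      refine h2.imp ?_
      rintro v w ⟨c1, c2, c3⟩
      exact ⟨fun h => c1 (DQ_inj c3.psz_eq h), R_twist c2 c3⟩
    rw [List.isChain_map] at h1
    refine h1.imp ?_
    rintro D D' ⟨c1, c2⟩
    rw [twistGraph, SimpleGraph.fromRel_adj]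
    exact ⟨fun h => c1 (congrArg Subtype.val h), c2⟩
  have hhead : (m.head hne).val = DQ a 1 := by
    have h1 : (m.map Subtype.val).head? = some (DQ a 1) := by
      rw [hm, List.head?_map, hl.head]
      rfl
    rw [List.head?_map, List.head?_eq_some_head hne] at h1
    simpa using h1
  have hlast : (m.getLast hne).val = DQ b 1 := by
    have h1 : (m.map Subtype.val).getLast? = some (DQ b 1) := by
      rw [hm, List.getLast?_map, hl.last]
      rfl
    rw [List.getLast?_map, List.getLast?_eq_some_getLast hne] at h1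
    simpa using h1
  have hal : a ∈ l := List.mem_of_mem_head? (by rw [hl.head]; rfl)
  have hbl : b ∈ l := List.mem_of_getLast? hl.last
  have hcl : (twistGraph (3 * n + 3)).Adj (m.getLast hne) (m.head hne) := by
    rw [twistGraph, SimpleGraph.fromRel_adj, hhead, hlast]
    refine ⟨?_, R_twist (hsz b hbl) hba⟩
    intro h
    have h1 : m.head hne = m[0] := List.head_eq_getElem hne
    have h2 : m.getLast hne = m[m.length - 1] := List.getLast_eq_getElem hne
    rw [h1, h2] at h
    have := (List.Nodup.getElem_inj_iff hmnd).1 h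
    omega
  have hmall : ∀ D, D ∈ m := by
    intro D
    obtain ⟨v, hv, hv'⟩ := exists_pair D.2
    have h1 : D.val ∈ m.map Subtype.val := by
      rw [hm, ← hv']
      exact List.mem_map.2 ⟨v, hmem v hv, rfl⟩
    obtain ⟨D', h2, h3⟩ := List.mem_map.1 h1
    rwa [← Subtype.ext h3]
  exact exists_cycle _ m hmnd hmch hne (by omega) hcl hmall

end Pool.Agent.Results.MP_7ee132_co.HamiltonTwist
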